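import Pool.Agent.H96.HK.Final

/-!
# Non-flat complete manifolds with heat kernel comparable to the Euclidean one

For every `d ≥ 2` we construct a complete Riemannian manifold `M` of dimension `d`, not isometric
to `ℝ^d`, whose heat kernel `H` satisfies
`C⁻¹ (4πt)^(-d/2) e^(-r²/4t) ≤ H(t,x,y) ≤ C (4πt)^(-d/2) e^(-r²/4t)`, `r = d(x,y)`, for all
`t > 0`, `x`, `y`.

`M = S × ℝ^(d-2)`, where `S = (ℝ × ℝ, ds² + F(s)² dφ²) / ℤ`, `F` is a smooth even convex function
with `F(s) = |s|` for `|s| ≥ 1`, and the generator of `ℤ` acts by `(s, φ) ↦ (-s, φ + π/2)`.  Outside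
of a compact set `S` is a flat cone of total angle `π`, that is `ℝ²/±1`, whose heat kernel is a sum
of two Gaussians.

* Upper bound: for short times (compared to the distance to the core) the sum over the lifts of
  `(4πt)⁻¹ e^(-d²/4t)` is a supersolution, because the curvature is not positive; for large times
  the barrier `t⁻¹ e^(-ψ/4t)`, `Δψ = 4`, `|∇ψ|² ≤ 4ψ`, and the comparison with the cone.
* Lower bound: local subsolutions, chaining along a minimal geodesic with the energy inequality
  (the first variation terms cancel), explicit subsolutions in flat rectangles, the comparison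
  with the cone, and one splitting for a pair of points one of which is in the core.
* The heat kernel of `S` is constructed by separation of variables.
-/

open Pool.Agent.H96.HK

namespace Pool.Agent.Results.MP_e94f6f_an.EuclideanHeatKernel

theorem result (d : ℕ) (hd : 2 ≤ d) :
    ∃ (g : E d → Matrix (Fin d) (Fin d) ℝ) (Γ : Subgroup (E d ≃ₜ E d)),
      IsMetric g ∧ IsDeck g Γ ∧ IsCompleteM g Γ ∧ ¬ IsFlatSpace g Γ ∧
      ∃ H, IsHeatKernel g Γ H ∧ ∃ C : ℝ, 1 ≤ C ∧ ∀ t > 0, ∀ x y,
        C⁻¹ * Eu d t (dM g Γ x y) ≤ H t x y ∧ H t x y ≤ C * Eu d t (dM g Γ x y) :=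
  final d hd

end Pool.Agent.Results.MP_e94f6f_an.EuclideanHeatKernel
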